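import Mathlib

/-!
# Project FUJ, Car: elements of a prime with all partial derivatives in the prime

`K` perfect, `P` a prime of `K[x]`: if `f ∈ P` and all `∂_j f ∈ P` then `f` is in the square of the
maximal ideal of the local ring at `P`.
-/

set_option autoImplicit false

open MvPolynomial TensorProduct

namespace Fuj

variable {σ : Type*} [Fintype σ] {K : Type*} [Field K]

theorem deriv_sum_apply {R A M ι : Type*} [CommSemiring R] [CommSemiring A] [AddCommMonoid M]
    [Algebra R A] [Module A M] [Module R M] (s : Finset ι) (D : ι → Derivation R A M) (a : A) :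
    (∑ i ∈ s, D i) a = ∑ i ∈ s, D i a := by
  classical
  induction s using Finset.induction_on with
  | empty => simp
  | insert i s hi ih => rw [Finset.sum_insert hi, Finset.sum_insert hi, Derivation.add_apply, ih]

/-- a derivation of a polynomial ring is determined by the gradient -/
theorem deriv_eq_sum {M : Type*} [AddCommGroup M] [Module K M] [Module (MvPolynomial σ K) M]
    [IsScalarTower K (MvPolynomial σ K) M] (D : Derivation K (MvPolynomial σ K) M)
    (f : MvPolynomial σ K) : D f = ∑ j, pderiv j f • D (X j) := by
  classical
  have key : D = ∑ j, (LinearMap.toSpanSingleton (MvPolynomial σ K) M (D (X j))).compDer (pderiv j) := by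
    refine MvPolynomial.derivation_ext fun i => ?_
    rw [deriv_sum_apply]
    simp only [Derivation.coe_comp, LinearMap.coe_comp, Function.comp_apply, Derivation.coeFn_coe,
      LinearMap.coe_restrictScalars, LinearMap.toSpanSingleton_apply]
    rw [Finset.sum_eq_single i]
    · simp
    · intro j _ hj
      rw [pderiv_X_of_ne (Ne.symm hj), zero_smul]
    · simp
  conv_lhs => rw [key]
  rw [deriv_sum_apply]
  rfl

theorem tens_zero {R A B : Type*} [CommRing R] [CommRing A] [CommRing B] [Algebra R A] [Algebra A B]
    (a : A) (ha : algebraMap A B a = 0) (y : Ω[A⁄R]) : (1 : B) ⊗ₜ[A] (a • y) = 0 := by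
  rw [← TensorProduct.smul_tmul, ← Algebra.algebraMap_eq_smul_one, ha, TensorProduct.zero_tmul]

theorem D_alg {R S A : Type*} [CommRing R] [CommRing S] [CommRing A] [Algebra R S] [Algebra R A]
    [Algebra S A] [IsScalarTower R S A] {ι : Type*} [Fintype ι] (a b : ι → S) (f : S)
    (h : (KaehlerDifferential.D R A).compAlgebraMap S f
      = ∑ j, a j • (KaehlerDifferential.D R A).compAlgebraMap S (b j)) :
    KaehlerDifferential.D R A (algebraMap S A f)
      = ∑ j, (algebraMap S A (a j)) • KaehlerDifferential.D R A (algebraMap S A (b j)) := by
  simp_rw [algebraMap_smul]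
  simpa using h

theorem mem_sq_of_grad [PerfectField K] (P : Ideal (MvPolynomial σ K)) [P.IsPrime]
    (f : MvPolynomial σ K) (hf : f ∈ P) (hd : ∀ j, pderiv j f ∈ P) :
    algebraMap (MvPolynomial σ K) (Localization.AtPrime P) f ∈
      (IsLocalRing.maximalIdeal (Localization.AtPrime P)) ^ 2 := by
  have hsurj : Function.Surjective (algebraMap (Localization.AtPrime P) P.ResidueField) :=
    IsLocalRing.residue_surjective
  have i1 : Algebra.FormallySmooth K (Localization.AtPrime P) := inferInstance
  have i2 : Algebra.EssFiniteType K P.ResidueField :=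
    Algebra.EssFiniteType.comp K (MvPolynomial σ K) P.ResidueField
  have i3 : Algebra.FormallySmooth K P.ResidueField := inferInstance
  obtain ⟨l, hl⟩ := (Algebra.FormallySmooth.iff_split_injection (R := K)
    (P := Localization.AtPrime P) (A := P.ResidueField) hsurj).1 i3
  have hker : RingHom.ker (algebraMap (Localization.AtPrime P) P.ResidueField)
      = IsLocalRing.maximalIdeal (Localization.AtPrime P) := IsLocalRing.ker_residue
  have hmem : ∀ g ∈ P, algebraMap (MvPolynomial σ K) (Localization.AtPrime P) g ∈
      RingHom.ker (algebraMap (Localization.AtPrime P) P.ResidueField) := by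
    intro g hg
    rw [hker]
    exact (IsLocalization.AtPrime.to_map_mem_maximal_iff (Localization.AtPrime P) P g).2 hg
  have h0 : KaehlerDifferential.kerCotangentToTensor K (Localization.AtPrime P) P.ResidueField
      (Ideal.toCotangent _ ⟨algebraMap (MvPolynomial σ K) (Localization.AtPrime P) f, hmem f hf⟩) = 0 := by
    rw [KaehlerDifferential.kerCotangentToTensor_toCotangent]
    have e : KaehlerDifferential.D K (Localization.AtPrime P)
        (algebraMap (MvPolynomial σ K) (Localization.AtPrime P) f)
        = ∑ j, (algebraMap (MvPolynomial σ K) (Localization.AtPrime P) (pderiv j f)) •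
          KaehlerDifferential.D K (Localization.AtPrime P)
            (algebraMap (MvPolynomial σ K) (Localization.AtPrime P) (X j)) := by
      exact D_alg (fun j => pderiv j f) (fun j => X j) f (deriv_eq_sum _ f)
    rw [e, TensorProduct.tmul_sum]
    refine Finset.sum_eq_zero fun j _ => ?_
    exact tens_zero _ (RingHom.mem_ker.1 (hmem _ (hd j))) _
  have h1 : Ideal.toCotangent (RingHom.ker (algebraMap (Localization.AtPrime P) P.ResidueField))
      ⟨algebraMap (MvPolynomial σ K) (Localization.AtPrime P) f, hmem f hf⟩ = 0 := by
    have := congrArg l h0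
    rw [map_zero] at this
    have h2 := LinearMap.congr_fun hl (Ideal.toCotangent _
      ⟨algebraMap (MvPolynomial σ K) (Localization.AtPrime P) f, hmem f hf⟩)
    rw [LinearMap.comp_apply, LinearMap.id_apply] at h2
    rw [← h2]
    exact this
  rw [Ideal.toCotangent_eq_zero] at h1
  rw [← hker]
  exact h1

end Fuj
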