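import Pool.Agent.Lib.MP_0b721b_ag.Fuj.Sigma
import Pool.Agent.Lib.MP_0b721b_ag.Car.Grad

/-!
# Project FUJ, Car: the data of the maps sigma exist over a perfect field
-/

set_option autoImplicit false

open MvPolynomial

namespace Fuj

variable {σ : Type*} {K : Type*} [Field K]

/-- the gradient with values in the residue field of `P` -/
noncomputable def grd (P : Ideal (MvPolynomial σ K)) [P.IsPrime] (f : MvPolynomial σ K) :
    σ → P.ResidueField :=
  fun j => algebraMap (MvPolynomial σ K) P.ResidueField (pderiv j f)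

theorem grd_X [DecidableEq σ] (P : Ideal (MvPolynomial σ K)) [P.IsPrime] (i : σ) :
    grd P (X i : MvPolynomial σ K) = Pi.single i 1 := by
  funext j
  unfold grd
  rw [pderiv_X, Pi.single_apply, Pi.single_apply]
  by_cases h : j = i
  · subst h
    simp
  · rw [if_neg (fun e => h e.symm), if_neg h, map_zero]

theorem res_zero {P : Ideal (MvPolynomial σ K)} [P.IsPrime] {f : MvPolynomial σ K} :
    algebraMap (MvPolynomial σ K) P.ResidueField f = 0 ↔ f ∈ P :=
  Ideal.algebraMap_residueField_eq_zero

theorem grd_mul {P : Ideal (MvPolynomial σ K)} [P.IsPrime] (a f : MvPolynomial σ K) (hf : f ∈ P) :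
    grd P (a * f) = (algebraMap (MvPolynomial σ K) P.ResidueField a) • grd P f := by
  funext j
  simp only [grd, Pi.smul_apply, smul_eq_mul, Derivation.leibniz, map_add, map_mul, smul_eq_mul]
  rw [res_zero.2 hf, zero_mul, add_zero]

theorem grd_sub {P : Ideal (MvPolynomial σ K)} [P.IsPrime] (f g : MvPolynomial σ K) :
    grd P (f - g) = grd P f - grd P g := by
  funext j
  simp [grd]

theorem grd_sum {P : Ideal (MvPolynomial σ K)} [P.IsPrime] {ι : Type*} (s : Finset ι)
    (f : ι → MvPolynomial σ K) : grd P (∑ i ∈ s, f i) = ∑ i ∈ s, grd P (f i) := by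
  funext j
  simp [grd, Finset.sum_apply]

/-- clearing denominators in the residue field -/
theorem clear_fin {P : Ideal (MvPolynomial σ K)} [P.IsPrime] {ι : Type*} (s : Finset ι)
    (l : ι → P.ResidueField) :
    ∃ c : MvPolynomial σ K, c ∉ P ∧ ∃ a : ι → MvPolynomial σ K, ∀ i ∈ s,
      algebraMap (MvPolynomial σ K) P.ResidueField c * l i
        = algebraMap (MvPolynomial σ K) P.ResidueField (a i) := by
  classical
  have hs : Function.Surjective (algebraMap (Localization.AtPrime P) P.ResidueField) :=
    IsLocalRing.residue_surjective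
  choose m hm using fun i => hs (l i)
  obtain ⟨c, hc⟩ := IsLocalization.exist_integer_multiples (M := P.primeCompl) s m
  refine ⟨c, c.2, ?_⟩
  have h1 : ∀ i : ι, ∃ a : MvPolynomial σ K, i ∈ s →
      algebraMap (MvPolynomial σ K) (Localization.AtPrime P) a = (c : MvPolynomial σ K) • m i := by
    intro i
    by_cases hi : i ∈ s
    · obtain ⟨a, ha⟩ := hc i hi
      exact ⟨a, fun _ => ha⟩
    · exact ⟨0, fun h => absurd h hi⟩
  choose a ha using h1
  refine ⟨a, fun i hi => ?_⟩
  have h2 := ha i hi
  have h3 := congrArg (algebraMap (Localization.AtPrime P) P.ResidueField) h2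
  rw [← IsScalarTower.algebraMap_apply, Algebra.smul_def, map_mul, ← IsScalarTower.algebraMap_apply,
    hm] at h3
  exact h3.symm

/-- rows: elements of the prime whose gradients span the gradients of the prime, completed to a
system with invertible jacobian -/
theorem exists_rows [Fintype σ] [DecidableEq σ] (P : Ideal (MvPolynomial σ K)) [P.IsPrime] :
    ∃ (U : Finset σ) (g : σ → MvPolynomial σ K), (∀ i ∈ U, g i ∈ P) ∧ (Jac g).det ∉ P ∧
      ∀ f ∈ P, grd P f ∈ Submodule.span P.ResidueField ((fun i => grd P (g i)) '' (U : Set σ)) := by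
  classical
  obtain ⟨b, hb1, hb2, hb3⟩ := exists_linearIndependent P.ResidueField (grd P '' (P : Set (MvPolynomial σ K)))
  have hb4 : LinearIndepOn P.ResidueField id b := hb3
  have hst : b ⊆ b ∪ Set.range (fun i : σ => (Pi.single i 1 : σ → P.ResidueField)) :=
    Set.subset_union_left
  obtain ⟨b', hb5, hb6, hb7, hb8⟩ := exists_linearIndepOn_id_extension hb4 hst
  have htop : ⊤ ≤ Submodule.span P.ResidueField (Set.range (Subtype.val : b' → (σ → P.ResidueField))) := by
    rw [Subtype.range_coe]
    have h1 : Submodule.span P.ResidueField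
        (Set.range (fun i : σ => (Pi.single i 1 : σ → P.ResidueField))) = ⊤ := by
      have := (Pi.basisFun P.ResidueField σ).span_eq
      rw [← this]
      congr 2
      funext i
      rw [Pi.basisFun_apply]
    rw [← h1]
    refine Submodule.span_le.2 ?_
    exact (Set.subset_union_right).trans hb7
  let B : Module.Basis b' P.ResidueField (σ → P.ResidueField) := Module.Basis.mk hb8 htop
  let e : σ ≃ b' := (Pi.basisFun P.ResidueField σ).indexEquiv B
  have hch : ∀ i : σ, ∃ f : MvPolynomial σ K, grd P f = (e i : σ → P.ResidueField) ∧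
      ((e i : σ → P.ResidueField) ∈ b → f ∈ P) := by
    intro i
    by_cases hi : (e i : σ → P.ResidueField) ∈ b
    · obtain ⟨f, hf, hf2⟩ := hb1 hi
      exact ⟨f, hf2, fun _ => hf⟩
    · rcases hb5 (e i).2 with h | ⟨j, hj⟩
      · exact absurd h hi
      · exact ⟨X j, by rw [grd_X]; exact hj, fun h => absurd h hi⟩
  choose g hg1 hg2 using hch
  refine ⟨Finset.univ.filter fun i => (e i : σ → P.ResidueField) ∈ b, g, ?_, ?_, ?_⟩
  · intro i hi
    exact hg2 i (Finset.mem_filter.1 hi).2
  · intro hdet
    have h1 : (((algebraMap (MvPolynomial σ K) P.ResidueField).mapMatrix (Jac g))).det = 0 := by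
      rw [← RingHom.map_det]
      exact res_zero.2 hdet
    have h2 : LinearIndependent P.ResidueField
        (((algebraMap (MvPolynomial σ K) P.ResidueField).mapMatrix (Jac g))).row := by
      have h3 : (((algebraMap (MvPolynomial σ K) P.ResidueField).mapMatrix (Jac g))).row
          = fun i => (e i : σ → P.ResidueField) := by
        funext i
        rw [← hg1 i]
        funext j
        rfl
      rw [h3]
      exact hb8.comp e e.injective
    rw [Matrix.linearIndependent_rows_iff_isUnit, Matrix.isUnit_iff_isUnit_det, h1] at h2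
    exact not_isUnit_zero h2
  · intro f hf
    have h1 : grd P f ∈ Submodule.span P.ResidueField b := by
      rw [hb2]
      exact Submodule.subset_span ⟨f, hf, rfl⟩
    refine Submodule.span_mono ?_ h1
    intro x hx
    obtain ⟨i, hi⟩ := e.surjective ⟨x, hb6 hx⟩
    refine ⟨i, ?_, ?_⟩
    · rw [Finset.mem_coe, Finset.mem_filter]
      exact ⟨Finset.mem_univ _, by rw [hi]; exact hx⟩
    · change grd P (g i) = x
      rw [hg1, hi]

/-- the elements found by `exists_rows` generate the maximal ideal modulo its square -/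
theorem gen_sq [Fintype σ] [PerfectField K] [DecidableEq σ] (P : Ideal (MvPolynomial σ K)) [P.IsPrime]
    (U : Finset σ) (g : σ → MvPolynomial σ K) (hg : ∀ i ∈ U, g i ∈ P)
    (hs : ∀ f ∈ P, grd P f ∈
      Submodule.span P.ResidueField ((fun i => grd P (g i)) '' (U : Set σ))) :
    IsLocalRing.maximalIdeal (Localization.AtPrime P) ≤
      (Ideal.span (g '' (U : Set σ))).map (algebraMap _ (Localization.AtPrime P)) ⊔
        IsLocalRing.maximalIdeal (Localization.AtPrime P) •
          IsLocalRing.maximalIdeal (Localization.AtPrime P) := by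
  classical
  have key : ∀ r ∈ P, algebraMap (MvPolynomial σ K) (Localization.AtPrime P) r ∈
      (Ideal.span (g '' (U : Set σ))).map (algebraMap _ (Localization.AtPrime P)) ⊔
        IsLocalRing.maximalIdeal (Localization.AtPrime P) •
          IsLocalRing.maximalIdeal (Localization.AtPrime P) := by
    intro r hr
    obtain ⟨l0, hl0⟩ := (Submodule.mem_span_image_finset_iff_exists_fun P.ResidueField).1 (hs r hr)
    let l : σ → P.ResidueField := fun i => if h : i ∈ U then l0 ⟨i, h⟩ else 0
    have hl : ∑ i ∈ U, l i • grd P (g i) = grd P r := by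
      rw [← Finset.sum_coe_sort, ← hl0]
      refine Finset.sum_congr rfl fun i _ => ?_
      simp only [l, i.2, dif_pos]
    obtain ⟨c, hc, a, ha⟩ := clear_fin (P := P) U l
    have h1 : ∑ i ∈ U, a i * g i ∈ P := Ideal.sum_mem _ fun i hi => P.mul_mem_left _ (hg i hi)
    have h2 : c * r - ∑ i ∈ U, a i * g i ∈ P := P.sub_mem (P.mul_mem_left _ hr) h1
    have h3 : grd P (c * r - ∑ i ∈ U, a i * g i) = 0 := by
      rw [grd_sub, grd_mul c r hr, grd_sum, ← hl, Finset.smul_sum, sub_eq_zero]
      refine Finset.sum_congr rfl fun i hi => ?_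
      rw [grd_mul _ _ (hg i hi), smul_smul, ha i hi]
    have h4 := mem_sq_of_grad P _ h2 (fun j => res_zero.1 (congrFun h3 j))
    rw [map_sub, map_mul, pow_two] at h4
    have h5 : algebraMap (MvPolynomial σ K) (Localization.AtPrime P) (∑ i ∈ U, a i * g i) ∈
        (Ideal.span (g '' (U : Set σ))).map (algebraMap _ (Localization.AtPrime P)) := by
      refine Ideal.mem_map_of_mem _ (Ideal.sum_mem _ fun i hi => Ideal.mul_mem_left _ _ ?_)
      exact Ideal.subset_span ⟨i, hi, rfl⟩
    have h6 : algebraMap (MvPolynomial σ K) (Localization.AtPrime P) c *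
        algebraMap (MvPolynomial σ K) (Localization.AtPrime P) r ∈
        (Ideal.span (g '' (U : Set σ))).map (algebraMap _ (Localization.AtPrime P)) ⊔
          IsLocalRing.maximalIdeal (Localization.AtPrime P) •
            IsLocalRing.maximalIdeal (Localization.AtPrime P) := by
      have h8 : algebraMap (MvPolynomial σ K) (Localization.AtPrime P) c *
          algebraMap (MvPolynomial σ K) (Localization.AtPrime P) r -
          algebraMap (MvPolynomial σ K) (Localization.AtPrime P) (∑ i ∈ U, a i * g i) ∈
          IsLocalRing.maximalIdeal (Localization.AtPrime P) •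
            IsLocalRing.maximalIdeal (Localization.AtPrime P) := h4
      have h7 := Submodule.add_mem_sup h5 h8
      rw [add_sub_cancel] at h7
      exact h7
    have hu : IsUnit (algebraMap (MvPolynomial σ K) (Localization.AtPrime P) c) :=
      IsLocalization.map_units (Localization.AtPrime P) (⟨c, hc⟩ : P.primeCompl)
    exact (Ideal.unit_mul_mem_iff_mem _ hu).1 h6
  intro y hy
  obtain ⟨⟨r, s⟩, hrs⟩ := IsLocalization.surj P.primeCompl y
  have hu : IsUnit (algebraMap (MvPolynomial σ K) (Localization.AtPrime P) (s : MvPolynomial σ K)) :=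
    IsLocalization.map_units (Localization.AtPrime P) s
  have hr : r ∈ P := by
    have h1 : algebraMap (MvPolynomial σ K) (Localization.AtPrime P) r ∈
        IsLocalRing.maximalIdeal (Localization.AtPrime P) := by
      rw [← hrs]
      exact Ideal.mul_mem_right _ _ hy
    exact (IsLocalization.AtPrime.to_map_mem_maximal_iff (Localization.AtPrime P) P r).1 h1
  have h2 := key r hr
  rw [← hrs] at h2
  exact (Ideal.mul_unit_mem_iff_mem _ hu).1 h2

/-- **The data of the maps sigma exist.** -/
theorem exists_data [Fintype σ] [PerfectField K] [DecidableEq σ] (P : Ideal (MvPolynomial σ K)) [P.IsPrime] :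
    ∃ (U : Finset σ) (g : σ → MvPolynomial σ K) (c : MvPolynomial σ K),
      (∀ i ∈ U, g i ∈ P) ∧ (∀ a ∈ P, c * a ∈ Ideal.span (g '' (U : Set σ))) ∧
      c * (Jac g).det ∉ P := by
  classical
  obtain ⟨U, g, hg, hdet, hs⟩ := exists_rows P
  have hm := gen_sq P U g hg hs
  have hle : IsLocalRing.maximalIdeal (Localization.AtPrime P) ≤
      (Ideal.span (g '' (U : Set σ))).map (algebraMap _ (Localization.AtPrime P)) := by
    refine Submodule.le_of_le_smul_of_le_jacobson_bot
      (IsNoetherian.noetherian _) ?_ hm
    rw [IsLocalRing.jacobson_eq_maximalIdeal _ bot_ne_top]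
  have h1 : ∀ r ∈ P, ∃ s : MvPolynomial σ K, s ∉ P ∧ s * r ∈ Ideal.span (g '' (U : Set σ)) := by
    intro r hr
    have h2 : algebraMap (MvPolynomial σ K) (Localization.AtPrime P) r ∈
        (Ideal.span (g '' (U : Set σ))).map (algebraMap _ (Localization.AtPrime P)) :=
      hle ((IsLocalization.AtPrime.to_map_mem_maximal_iff (Localization.AtPrime P) P r).2 hr)
    obtain ⟨⟨i, s⟩, his⟩ := (IsLocalization.mem_map_algebraMap_iff P.primeCompl _).1 h2
    have hinj : Function.Injective (algebraMap (MvPolynomial σ K) (Localization.AtPrime P)) :=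
      IsLocalization.injective _ P.primeCompl_le_nonZeroDivisors
    refine ⟨s, s.2, ?_⟩
    have h3 : (s : MvPolynomial σ K) * r = i := by
      apply hinj
      rw [map_mul, mul_comm]
      exact his
    rw [h3]
    exact i.2
  obtain ⟨T, hT⟩ := (IsNoetherian.noetherian P : P.FG)
  have h2 : ∀ r : MvPolynomial σ K, ∃ s : MvPolynomial σ K, s ∉ P ∧
      (r ∈ P → s * r ∈ Ideal.span (g '' (U : Set σ))) := by
    intro r
    by_cases hr : r ∈ P
    · obtain ⟨s, h3, h4⟩ := h1 r hr
      exact ⟨s, h3, fun _ => h4⟩
    · exact ⟨1, fun h => (Ideal.IsPrime.ne_top ‹_›) ((Ideal.eq_top_iff_one _).2 h),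
        fun h => absurd h hr⟩
  choose s hs1 hs2 using h2
  refine ⟨U, g, ∏ t ∈ T, s t, hg, ?_, ?_⟩
  · intro a ha
    rw [← hT] at ha
    induction ha using Submodule.span_induction with
    | mem x hx =>
      rw [← Finset.mul_prod_erase T s (Finset.mem_coe.1 hx), mul_comm (s x), mul_assoc]
      refine Ideal.mul_mem_left _ _ (hs2 x ?_)
      rw [← hT]
      exact Ideal.subset_span hx
    | zero => rw [mul_zero]; exact Ideal.zero_mem _
    | add x y _ _ hx hy => rw [mul_add]; exact Ideal.add_mem _ hx hy
    | smul r x _ hx =>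
      rw [smul_eq_mul, mul_left_comm]
      exact Ideal.mul_mem_left _ _ hx
  · intro h
    rcases (Ideal.IsPrime.mem_or_mem ‹P.IsPrime› h) with h | h
    · obtain ⟨t, _, ht⟩ := (Ideal.IsPrime.prod_mem_iff (hp := ‹P.IsPrime›)).1 h
      exact hs1 t ht
    · exact hdet h

end Fuj
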