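import Pool.Agent.Lib.MP_0b721b_ag.Car.Pi

/-!
# Project FUJ, Car: the Cartier identity `pi_q ((prod G_i)^(q-1) det (d_j G_i)) = det (d_j G_i)`
-/

set_option autoImplicit false

namespace Pool.Agent.Lib.MP_0b721b_ag.Car

open MvPolynomial Finset

variable {s : Type*} [Fintype s] [DecidableEq s] {k : Type*} [Field k] (p : ℕ) [hp : Fact p.Prime]
  [CharP k p] [PerfectRing k p]

/-- the row `dg` -/
noncomputable def dg (g : MvPolynomial s k) : s → MvPolynomial s k := fun j => pderiv j g

/-- the row `g^(p-1) dg` -/
noncomputable def th (g : MvPolynomial s k) : s → MvPolynomial s k :=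
  fun j => g ^ (p - 1) * pderiv j g

/-- generators of the closed rows together with their Cartier images -/
def Gen (x : (s → MvPolynomial s k) × (s → MvPolynomial s k)) : Prop :=
  (∃ w μ, x = (dg (monomial w μ), 0)) ∨ (∃ m l, x = (th p (monomial m l), dg (monomial m l)))

omit [Fintype s] [DecidableEq s] hp [CharP k p] [PerfectRing k p] in
theorem X_pd (j : s) (m : s →₀ ℕ) (r : k) :
    X j * pderiv j (monomial m r) = monomial m (r * (m j : k)) := by
  rw [X_mul_pderiv_monomial, smul_monomial, nsmul_eq_mul, mul_comm]

omit [Fintype s] [DecidableEq s] [CharP k p] [PerfectRing k p] in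
theorem Gen.log {x : (s → MvPolynomial s k) × (s → MvPolynomial s k)} (h : Gen p x) :
    ∃ (W V : s →₀ ℕ) (a b : k) (c : s → ℕ), (∀ j, X j * x.1 j = monomial W (a * (c j : k))) ∧
      (∀ j, X j * x.2 j = monomial V (b * (c j : k))) ∧
      ((b = 0 ∧ ∀ j, c j = W j) ∨ (W = p • V ∧ a = b ^ p)) := by
  rcases h with ⟨w, μ, rfl⟩ | ⟨m, l, rfl⟩
  · refine ⟨w, 0, μ, 0, w, fun j => X_pd j w μ, fun j => ?_, Or.inl ⟨rfl, fun _ => rfl⟩⟩
    simp
  · refine ⟨p • m, m, l ^ p, l, m, fun j => ?_, fun j => X_pd j m l, Or.inr ⟨rfl, rfl⟩⟩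
    simp only [th]
    rw [mul_left_comm, X_pd, monomial_pow, monomial_mul]
    have e : (p - 1) • m + m = p • m := by
      rw [← succ_nsmul]
      congr 1
      have := hp.out.pos
      omega
    have e2 : l ^ (p - 1) * (l * (m j : k)) = l ^ p * (m j : k) := by
      rw [← mul_assoc, ← pow_succ]
      congr 2
      have := hp.out.pos
      omega
    rw [e, e2]

omit [Fintype s] [DecidableEq s] hp [CharP k p] [PerfectRing k p] in
theorem prod_mono {t : Type*} (u : Finset t) (W : t → (s →₀ ℕ)) (a : t → k) :
    ∏ i ∈ u, monomial (W i) (a i) = monomial (∑ i ∈ u, W i) (∏ i ∈ u, a i) := by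
  classical
  induction u using Finset.induction_on with
  | empty => simp
  | insert i u hi ih => rw [prod_insert hi, ih, monomial_mul, sum_insert hi, prod_insert hi]

omit [DecidableEq s] hp [CharP k p] [PerfectRing k p] in
theorem prod_X : (∏ j : s, (X j : MvPolynomial s k)) = monomial (cst s 1) 1 := by
  classical
  have h : ∀ j : s, (X j : MvPolynomial s k) = monomial (Finsupp.single j 1) 1 := fun j => rfl
  simp_rw [h]
  rw [prod_mono]
  congr 2
  · ext i
    rw [Finsupp.finsetSum_apply]
    simp [Finsupp.single_apply]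
  · simp

omit hp [CharP k p] [PerfectRing k p] in
theorem detlog (A : Matrix s s (MvPolynomial s k)) (W : s → (s →₀ ℕ)) (a : s → k) (c : s → s → ℕ)
    (h : ∀ i j, X j * A i j = monomial (W i) (a i * (c i j : k))) :
    monomial (cst s 1) 1 * A.det
      = monomial (∑ i, W i) ((∏ i, a i) * (Matrix.of fun i j => (c i j : k)).det) := by
  rw [← prod_X, ← Matrix.det_mul_row (fun j => X j) A]
  have e : (Matrix.of fun i j => X j * A i j)
      = Matrix.of fun i j => (monomial (W i) (a i) : MvPolynomial s k) *
          (Matrix.of fun i j => (C (c i j : k) : MvPolynomial s k)) i j := by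
    ext1 i j
    rw [Matrix.of_apply, Matrix.of_apply, Matrix.of_apply, h, mul_comm (monomial (W i) (a i)),
      C_mul_monomial, mul_comm]
  rw [e, Matrix.det_mul_column, prod_mono]
  have e2 : (Matrix.of fun i j => (C (c i j : k) : MvPolynomial s k)).det
      = C (Matrix.of fun i j => (c i j : k)).det := by
    rw [RingHom.map_det]
    rfl
  rw [e2, mul_comm, C_mul_monomial, mul_comm]

theorem det_base (ω η : Matrix s s (MvPolynomial s k)) (h : ∀ i, Gen p (ω i, η i)) :
    piP p ω.det = η.det := by
  classical
  choose W V a b c h1 h2 h3 using fun i => (h i).log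
  simp only at h1 h2
  have d1 := detlog ω W a c h1
  have d2 := detlog η V b c h2
  have hX : (monomial (cst s 1) 1 : MvPolynomial s k) ≠ 0 := by
    rw [Ne, monomial_eq_zero]
    exact one_ne_zero
  refine mul_left_cancel₀ hX ?_
  rw [X_mul_piP, d1, d2]
  by_cases hall : ∀ i, W i = p • V i ∧ a i = b i ^ p
  · have e1 : ∑ i, W i = p • ∑ i, V i := by
      rw [Finset.smul_sum]
      exact Finset.sum_congr rfl fun i _ => (hall i).1
    have e2 : ∏ i, a i = (∏ i, b i) ^ p := by
      rw [← Finset.prod_pow]
      exact Finset.prod_congr rfl fun i _ => (hall i).2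
    rw [piP_mono_of p e1, e2, rt_mul, rt_pow, rt_det]
  · push Not at hall
    obtain ⟨i0, hi0⟩ := hall
    have t0 : b i0 = 0 := by
      rcases h3 i0 with h | h
      · exact h.1
      · exact absurd h.2 (hi0 h.1)
    have e0 : ∏ i, b i = 0 := Finset.prod_eq_zero (mem_univ i0) t0
    rw [e0, zero_mul, monomial_zero]
    by_cases hd : ∀ j, p ∣ (∑ i, W i) j
    · have hdet : (Matrix.of fun i j => (c i j : k)).det = 0 := by
        rw [← Matrix.exists_vecMul_eq_zero_iff]
        refine ⟨fun i => if W i = p • V i ∧ a i = b i ^ p then 0 else 1, ?_, ?_⟩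
        · intro h0
          have := congrFun h0 i0
          simp only [Pi.zero_apply] at this
          rw [if_neg (fun h => hi0 h.1 h.2)] at this
          exact one_ne_zero this
        · ext j
          rw [Matrix.vecMul, Pi.zero_apply]
          simp only [dotProduct, Matrix.of_apply]
          have e : ∀ i, (if W i = p • V i ∧ a i = b i ^ p then (0 : k) else 1) * (c i j : k)
              = ((W i j : ℕ) : k) := by
            intro i
            by_cases hi : W i = p • V i ∧ a i = b i ^ p
            · rw [if_pos hi, zero_mul, hi.1]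
              simp
            · rw [if_neg hi, one_mul]
              rcases h3 i with h | h
              · rw [h.2 j]
              · exact absurd h hi
          simp only [e]
          rw [← Nat.cast_sum, ← Finsupp.finsetSum_apply, CharP.cast_eq_zero_iff k p]
          exact hd j
      rw [hdet, mul_zero, monomial_zero, mul_zero, map_zero]
    · push Not at hd
      exact piP_mono_not p hd _

/-- the closed rows together with their Cartier images -/
noncomputable def ZZ : AddSubgroup ((s → MvPolynomial s k) × (s → MvPolynomial s k)) :=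
  AddSubgroup.closure {x | Gen p x}

theorem det_Z (T : Finset s) : ∀ ω η : Matrix s s (MvPolynomial s k),
    (∀ i ∈ T, (ω i, η i) ∈ ZZ p) → (∀ i ∉ T, Gen p (ω i, η i)) → piP p ω.det = η.det := by
  classical
  induction T using Finset.induction_on with
  | empty =>
    intro ω η _ h
    exact det_base p ω η fun i => h i (by simp)
  | insert i T hi ih =>
    intro ω η hT hG
    have key : ∀ x ∈ ZZ (s := s) (k := k) p,
        piP p (ω.updateRow i x.1).det = (η.updateRow i x.2).det := by
      intro x hx
      induction hx using AddSubgroup.closure_induction with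
      | mem x hx =>
        refine ih _ _ ?_ ?_
        · intro j hj
          have hji : j ≠ i := fun h => hi (h ▸ hj)
          rw [Matrix.updateRow_ne hji, Matrix.updateRow_ne hji]
          exact hT j (mem_insert_of_mem hj)
        · intro j hj
          by_cases hji : j = i
          · subst hji
            rw [Matrix.updateRow_self, Matrix.updateRow_self]
            exact hx
          · rw [Matrix.updateRow_ne hji, Matrix.updateRow_ne hji]
            exact hG j (by simp [hji, hj])
      | zero =>
        rw [Matrix.det_eq_zero_of_row_eq_zero i (by intro j; rw [Matrix.updateRow_self]; rfl),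
          Matrix.det_eq_zero_of_row_eq_zero i (by intro j; rw [Matrix.updateRow_self]; rfl), map_zero]
      | add x y _ _ hx hy =>
        rw [Prod.fst_add, Prod.snd_add, Matrix.det_updateRow_add, Matrix.det_updateRow_add, map_add,
          hx, hy]
      | neg x _ hx =>
        rw [Prod.fst_neg, Prod.snd_neg, ← neg_one_smul (MvPolynomial s k) x.1,
          ← neg_one_smul (MvPolynomial s k) x.2, Matrix.det_updateRow_smul,
          Matrix.det_updateRow_smul, neg_one_mul, neg_one_mul, map_neg, hx]
    have := key (ω i, η i) (hT i (mem_insert_self i T))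
    simpa using this

/-- the polynomial with `dE = (a+b)^(p-1) d(a+b) - a^(p-1) da - b^(p-1) db` -/
noncomputable def EE (a b : MvPolynomial s k) : MvPolynomial s k :=
  ∑ l ∈ range (p - 1), ((Nat.choose p (l + 1) / p : ℕ) : MvPolynomial s k) *
    (a ^ (l + 1) * b ^ (p - 1 - l))

omit [Fintype s] [DecidableEq s] [CharP k p] [PerfectRing k p] in
theorem pd_EE (a b : MvPolynomial s k) (j : s) :
    pderiv j (EE p a b) = (a + b) ^ (p - 1) * pderiv j (a + b) - a ^ (p - 1) * pderiv j a
      - b ^ (p - 1) * pderiv j b := by
  obtain ⟨n, hn⟩ : ∃ n, p = n + 1 := ⟨p - 1, by have := hp.out.pos; omega⟩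
  have hn1 : p - 1 = n := by omega
  have c1 : ∀ l ∈ range n, ((Nat.choose p (l + 1) / p : ℕ) : MvPolynomial s k) * ((l + 1 : ℕ) : MvPolynomial s k)
      = (Nat.choose n l : MvPolynomial s k) := by
    intro l hl
    rw [mem_range] at hl
    have hdvd : p ∣ Nat.choose p (l + 1) := hp.out.dvd_choose_self (by omega) (by omega)
    rw [← Nat.cast_mul]
    congr 1
    have h := Nat.add_one_mul_choose_eq n l
    rw [← hn] at h
    obtain ⟨d, hd⟩ := hdvd
    rw [hd, Nat.mul_div_cancel_left _ hp.out.pos]
    rw [hd] at h
    have : p * (d * (l + 1)) = p * Nat.choose n l := by rw [h]; ring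
    exact Nat.eq_of_mul_eq_mul_left hp.out.pos this
  have c2 : ∀ l ∈ range n, ((Nat.choose p (l + 1) / p : ℕ) : MvPolynomial s k) * ((n - l : ℕ) : MvPolynomial s k)
      = (Nat.choose n (l + 1) : MvPolynomial s k) := by
    intro l hl
    rw [mem_range] at hl
    have hdvd : p ∣ Nat.choose p (l + 1) := hp.out.dvd_choose_self (by omega) (by omega)
    rw [← Nat.cast_mul]
    congr 1
    obtain ⟨d, hd⟩ := hdvd
    rw [hd, Nat.mul_div_cancel_left _ hp.out.pos]
    have h : Nat.choose p (l + 1) * (n - l) = p * Nat.choose n (l + 1) := by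
      rw [hn]
      have := Nat.choose_mul_succ_eq n (l + 1)
      have e : n + 1 - (l + 1) = n - l := by omega
      rw [e] at this
      rw [← this]
      ring
    rw [hd] at h
    have : p * (d * (n - l)) = p * Nat.choose n (l + 1) := by rw [← h]; ring
    exact Nat.eq_of_mul_eq_mul_left hp.out.pos this
  have e1 : (a + b) ^ n = (∑ l ∈ range n, a ^ l * b ^ (n - l) * (Nat.choose n l : MvPolynomial s k)) + a ^ n := by
    rw [add_pow, sum_range_succ]
    simp
  have e2 : (a + b) ^ n = (∑ l ∈ range n, a ^ (l + 1) * b ^ (n - (l + 1)) *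
      (Nat.choose n (l + 1) : MvPolynomial s k)) + b ^ n := by
    rw [add_pow, sum_range_succ']
    simp
  have e3 : pderiv j (EE p a b) = (∑ l ∈ range n, a ^ l * b ^ (n - l) * (Nat.choose n l : MvPolynomial s k)) * pderiv j a
      + (∑ l ∈ range n, a ^ (l + 1) * b ^ (n - (l + 1)) *
      (Nat.choose n (l + 1) : MvPolynomial s k)) * pderiv j b := by
    unfold EE
    rw [hn1, map_sum, Finset.sum_mul, Finset.sum_mul, ← Finset.sum_add_distrib]
    refine Finset.sum_congr rfl fun l hl => ?_
    rw [← c1 l hl, ← c2 l hl]
    have hl' := mem_range.1 hl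
    have hcast : ∀ m : ℕ, pderiv j ((m : ℕ) : MvPolynomial s k) = 0 := fun m => by
      rw [← map_natCast (C (σ := s) (R := k)), pderiv_C]
    rw [Derivation.leibniz, hcast, Derivation.leibniz, Derivation.leibniz_pow, Derivation.leibniz_pow]
    have e : n - l - 1 = n - (l + 1) := by omega
    simp only [smul_eq_mul, nsmul_eq_mul, Nat.add_sub_cancel, e]
    push_cast
    ring
  rw [e3, hn1, map_add, mul_add]
  linear_combination (-pderiv j a) * e1 - (pderiv j b) * e2

theorem dE_mem (E : MvPolynomial s k) : ((dg E, 0) : (s → MvPolynomial s k) × (s → MvPolynomial s k)) ∈ ZZ p := by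
  induction E using MvPolynomial.induction_on' with
  | monomial u a => exact AddSubgroup.subset_closure (Or.inl ⟨u, a, rfl⟩)
  | add x y hx hy =>
    have : ((dg (x + y), 0) : (s → MvPolynomial s k) × (s → MvPolynomial s k)) = (dg x, 0) + (dg y, 0) := by
      refine Prod.ext ?_ (by simp)
      funext j
      simp [dg]
    rw [this]
    exact add_mem hx hy

theorem th_mem (g : MvPolynomial s k) : ((th p g, dg g) : (s → MvPolynomial s k) × (s → MvPolynomial s k)) ∈ ZZ p := by
  induction g using MvPolynomial.induction_on' with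
  | monomial u a => exact AddSubgroup.subset_closure (Or.inr ⟨u, a, rfl⟩)
  | add x y hx hy =>
    have : ((th p (x + y), dg (x + y)) : (s → MvPolynomial s k) × (s → MvPolynomial s k))
        = (th p x, dg x) + (th p y, dg y) + (dg (EE p x y), 0) := by
      refine Prod.ext ?_ ?_
      · funext j
        simp only [th, dg, Prod.fst_add, Pi.add_apply]
        rw [pd_EE]
        ring
      · funext j
        simp [dg]
    rw [this]
    exact add_mem (add_mem hx hy) (dE_mem p _)

/-- the Jacobian determinant -/
noncomputable def jac (G : s → MvPolynomial s k) : MvPolynomial s k :=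
  (Matrix.of fun i j => pderiv j (G i)).det

/-- the Cartier identity -/
theorem piP_jac (G : s → MvPolynomial s k) : piP p ((∏ i, G i) ^ (p - 1) * jac G) = jac G := by
  have e : (∏ i, G i) ^ (p - 1) * jac G = (Matrix.of fun i j => G i ^ (p - 1) * pderiv j (G i)).det := by
    unfold jac
    rw [← Finset.prod_pow, ← Matrix.det_mul_column]
    rfl
  rw [e]
  exact det_Z p univ _ _ (fun i _ => th_mem p (G i)) (fun i hi => absurd (mem_univ i) hi)

theorem piQ_jac (e : ℕ) (G : s → MvPolynomial s k) :
    piQ p e ((∏ i, G i) ^ (p ^ e - 1) * jac G) = jac G := by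
  induction e with
  | zero => simp [piQ]
  | succ e ih =>
    have h : (∏ i, G i) ^ (p ^ (e + 1) - 1) = ((∏ i, G i) ^ (p ^ e - 1)) ^ p * (∏ i, G i) ^ (p - 1) := by
      rw [← pow_mul, ← pow_add]
      congr 1
      have h1 : 1 ≤ p ^ e := Nat.one_le_pow _ _ hp.out.pos
      have h2 := hp.out.pos
      rw [pow_succ, Nat.sub_mul, one_mul]
      have h3 : p ≤ p ^ e * p := Nat.le_mul_of_pos_left p h1
      omega
    change piQ p e (piP p _) = _
    rw [h, mul_assoc, piP_pow_mul, piP_jac, ih]

end Pool.Agent.Lib.MP_0b721b_ag.Car
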