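import Mathlib

/-!
# Project FUJ, Car: the operator `piP` (Cartier operator on top forms)

`k` a perfect field of characteristic `p`, `s` a finite type: `coeff m (piP f)` is the `p`-th root of
`coeff (p m + (p - 1)(1, .., 1)) f`.
-/

set_option autoImplicit false

namespace Pool.Agent.Lib.MP_0b721b_ag.Car

open MvPolynomial Finset

section Exp

variable {s : Type*} [Fintype s]

/-- constant exponent -/
noncomputable def cst (s : Type*) [Fintype s] (c : ℕ) : s →₀ ℕ :=
  Finsupp.equivFunOnFinite.symm (fun _ => c)

@[simp]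
theorem cst_apply (c : ℕ) (i : s) : cst s c i = c := rfl

/-- `m ↦ p m + (p - 1)` -/
noncomputable def sh (p : ℕ) (m : s →₀ ℕ) : s →₀ ℕ := p • m + cst s (p - 1)

@[simp]
theorem sh_apply (p : ℕ) (m : s →₀ ℕ) (i : s) : sh p m i = p * m i + (p - 1) := by
  simp [sh]

theorem sh_inj {p : ℕ} (hp : p ≠ 0) : Function.Injective (sh (s := s) p) := by
  intro m m' h
  ext i
  have := DFunLike.congr_fun h i
  simp only [sh_apply, Nat.add_right_cancel_iff] at this
  exact Nat.eq_of_mul_eq_mul_left (Nat.pos_of_ne_zero hp) this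

end Exp

variable {s : Type*} [Fintype s] {k : Type*} [Field k] (p : ℕ) [hp : Fact p.Prime] [CharP k p]
  [PerfectRing k p]

/-- `p`-th root -/
noncomputable def rt (x : k) : k := (frobeniusEquiv k p).symm x

theorem rt_pow (x : k) : rt p (x ^ p) = x := by
  unfold rt
  rw [RingEquiv.symm_apply_eq]
  simp [frobenius_def]

theorem rt_mul (x y : k) : rt p (x * y) = rt p x * rt p y := map_mul _ x y

theorem rt_add (x y : k) : rt p (x + y) = rt p x + rt p y := map_add _ x y

theorem rt_zero : rt p (0 : k) = 0 := map_zero _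

theorem rt_natCast (n : ℕ) : rt p (n : k) = n := map_natCast _ n

theorem rt_det {t : Type*} [Fintype t] [DecidableEq t] (c : t → t → ℕ) :
    rt p (Matrix.det (Matrix.of fun i j => (c i j : k))) = Matrix.det (Matrix.of fun i j => (c i j : k)) := by
  unfold rt
  rw [RingEquiv.map_det]
  congr 1
  ext i j
  simp

/-- the operator `pi_p` -/
noncomputable def piP : MvPolynomial s k →+ MvPolynomial s k where
  toFun f := AddMonoidAlgebra.ofCoeff
    ((Finsupp.comapDomain (sh p) (AddMonoidAlgebra.coeff f)
      (sh_inj hp.out.ne_zero).injOn).mapRange (rt p) (rt_zero p))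
  map_zero' := by
    ext m
    simp [coeff]
  map_add' f g := by
    ext m
    simp [coeff, rt_add]

theorem coeff_piP (f : MvPolynomial s k) (m : s →₀ ℕ) : coeff m (piP p f) = rt p (coeff (sh p m) f) :=
  rfl

theorem piP_pow_mul (a f : MvPolynomial s k) : piP p (a ^ p * f) = a * piP p f := by
  classical
  induction a using MvPolynomial.induction_on' with
  | monomial u α =>
    rw [monomial_pow]
    ext m
    rw [coeff_piP, coeff_monomial_mul', coeff_monomial_mul', coeff_piP]
    have h1 : p • u ≤ sh p m ↔ u ≤ m := by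
      rw [Finsupp.le_def, Finsupp.le_def]
      refine forall_congr' fun i => ?_
      rw [sh_apply, Finsupp.smul_apply, smul_eq_mul]
      have hp0 := hp.out.pos
      constructor
      · intro h
        by_contra hc
        push Not at hc
        have : p * (m i + 1) ≤ p * u i := Nat.mul_le_mul_left p hc
        rw [Nat.mul_add] at this
        omega
      · intro h
        have : p * u i ≤ p * m i := Nat.mul_le_mul_left p h
        omega
    by_cases h : u ≤ m
    · rw [if_pos h, if_pos (h1.2 h), rt_mul, rt_pow]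
      congr 3
      ext i
      rw [Finsupp.tsub_apply, sh_apply, sh_apply, Finsupp.tsub_apply, Finsupp.smul_apply, smul_eq_mul,
        Nat.mul_sub]
      have : p * u i ≤ p * m i := Nat.mul_le_mul_left p (h i)
      omega
    · rw [if_neg h, if_neg (fun h' => h (h1.1 h')), rt_zero]
  | add a b ha hb =>
    have : CharP (MvPolynomial s k) p := inferInstance
    rw [add_pow_char, add_mul, map_add, ha, hb, add_mul]

/-- `pi_p (X^(p-1) h)` -/
theorem coeff_piP_mono (h : MvPolynomial s k) (m : s →₀ ℕ) :
    coeff m (piP p (monomial (cst s (p - 1)) 1 * h)) = rt p (coeff (p • m) h) := by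
  rw [coeff_piP, sh, add_comm (p • m), coeff_monomial_mul, one_mul]

/-- `X^1 * pi_p f = pi_p (X^(p-1) (X^1 f))` -/
theorem X_mul_piP (f : MvPolynomial s k) :
    monomial (cst s 1) 1 * piP p f
      = piP p (monomial (cst s (p - 1)) 1 * (monomial (cst s 1) 1 * f)) := by
  rw [← piP_pow_mul, ← mul_assoc, monomial_pow, monomial_mul, one_pow, one_mul]
  have e : p • cst s 1 = cst s (p - 1) + cst s 1 := by
    ext i
    simp only [Finsupp.smul_apply, cst_apply, smul_eq_mul, mul_one, Finsupp.add_apply]
    have := hp.out.pos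
    omega
  rw [e]

theorem piP_mono_of {U V : s →₀ ℕ} (h : U = p • V) (γ : k) :
    piP p (monomial (cst s (p - 1)) 1 * monomial U γ) = monomial V (rt p γ) := by
  classical
  ext m
  rw [coeff_piP_mono, coeff_monomial, coeff_monomial, h]
  by_cases hm : V = m
  · rw [if_pos hm, if_pos (by rw [hm])]
  · rw [if_neg hm, if_neg, rt_zero]
    intro e
    refine hm ?_
    ext i
    have := DFunLike.congr_fun e i
    simp only [Finsupp.smul_apply, smul_eq_mul] at this
    exact Nat.eq_of_mul_eq_mul_left hp.out.pos this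

theorem piP_mono_not {U : s →₀ ℕ} (h : ∃ i, ¬ p ∣ U i) (γ : k) :
    piP p (monomial (cst s (p - 1)) 1 * monomial U γ) = 0 := by
  classical
  ext m
  rw [coeff_piP_mono, coeff_monomial, if_neg, rt_zero, coeff_zero]
  intro e
  obtain ⟨i, hi⟩ := h
  refine hi ⟨m i, ?_⟩
  rw [e]
  simp

/-- the iterate `pi_q`, `q = p^e` -/
noncomputable def piQ : ℕ → MvPolynomial s k →+ MvPolynomial s k
  | 0 => AddMonoidHom.id _
  | e + 1 => (piQ e).comp (piP p)

theorem piQ_pow_mul (e : ℕ) (a f : MvPolynomial s k) : piQ p e (a ^ p ^ e * f) = a * piQ p e f := by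
  induction e generalizing f with
  | zero => simp [piQ]
  | succ e ih =>
    change piQ p e (piP p (a ^ p ^ (e + 1) * f)) = a * piQ p e (piP p f)
    rw [pow_succ, pow_mul, piP_pow_mul, ih]

end Pool.Agent.Lib.MP_0b721b_ag.Car
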