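import Mathlib

/-!
# Project FUJ, Car: making a `q`-inverse linear map homogeneous for weights
-/

set_option autoImplicit false

open MvPolynomial

namespace Fuj

variable {σ : Type*} {k : Type*} [CommRing k]

/-- weighted components commute with change of coefficients -/
theorem wc_map {R : Type*} [CommRing R] (w : σ → ℕ) (n : ℕ) (φ : k →+* R) (f : MvPolynomial σ k) :
    weightedHomogeneousComponent w n (map φ f) = map φ (weightedHomogeneousComponent w n f) := by
  classical
  ext d
  rw [coeff_weightedHomogeneousComponent, coeff_map, coeff_map, coeff_weightedHomogeneousComponent]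
  split_ifs
  · rfl
  · rw [map_zero]

/-- multiplication by a monomial shifts the weighted components -/
theorem wc_monomial_mul (w : σ → ℕ) (m : ℕ) (α : σ →₀ ℕ) (b : k) (f : MvPolynomial σ k) :
    weightedHomogeneousComponent w (Finsupp.weight w α + m) (monomial α b * f) =
      monomial α b * weightedHomogeneousComponent w m f := by
  classical
  ext d
  rw [coeff_weightedHomogeneousComponent, coeff_monomial_mul', coeff_monomial_mul',
    coeff_weightedHomogeneousComponent]
  by_cases h : α ≤ d
  · rw [if_pos h, if_pos h]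
    have e : Finsupp.weight w d = Finsupp.weight w α + Finsupp.weight w (d - α) := by
      rw [← map_add, add_tsub_cancel_of_le h]
    rw [e]
    by_cases h2 : Finsupp.weight w (d - α) = m
    · rw [if_pos h2, if_pos (by rw [h2])]
    · rw [if_neg h2, if_neg (fun h3 => h2 (Nat.add_left_cancel h3)), mul_zero]
  · rw [if_neg h, if_neg h]
    split_ifs <;> rfl

/-- the homogeneous version of `s` -/
noncomputable def tau (w : σ → ℕ) (q δ : ℕ) (s : MvPolynomial σ k →ₗ[k] MvPolynomial σ k) :
    MvPolynomial σ k →ₗ[k] MvPolynomial σ k :=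
  (basisMonomials σ k).constr k (fun α =>
    if q ∣ Finsupp.weight w α then
      weightedHomogeneousComponent w (Finsupp.weight w α / q + δ) (s (monomial α 1)) else 0)

theorem tau_monomial (w : σ → ℕ) (q δ : ℕ) (s : MvPolynomial σ k →ₗ[k] MvPolynomial σ k)
    (α : σ →₀ ℕ) (a : k) : tau w q δ s (monomial α a) =
      if q ∣ Finsupp.weight w α then
        weightedHomogeneousComponent w (Finsupp.weight w α / q + δ) (s (monomial α a)) else 0 := by
  have h0 : (monomial α a : MvPolynomial σ k) = a • monomial α 1 := by
    rw [smul_monomial, smul_eq_mul, mul_one]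
  have h : (monomial α 1 : MvPolynomial σ k) = basisMonomials σ k α := by
    rw [coe_basisMonomials]
  rw [h0, map_smul]
  have h1 : tau w q δ s (monomial α 1) = if q ∣ Finsupp.weight w α then
      weightedHomogeneousComponent w (Finsupp.weight w α / q + δ) (s (monomial α 1)) else 0 := by
    unfold tau
    conv_lhs => rw [h]
    rw [Module.Basis.constr_basis]
  rw [h1]
  split_ifs
  · rw [map_smul, map_smul]
  · rw [smul_zero]

theorem tau_hom (w : σ → ℕ) {q : ℕ} (hq : 0 < q) (δ : ℕ)
    (s : MvPolynomial σ k →ₗ[k] MvPolynomial σ k) (n : ℕ) (r : MvPolynomial σ k)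
    (hr : IsWeightedHomogeneous w r (q * n)) :
    tau w q δ s r = weightedHomogeneousComponent w (n + δ) (s r) := by
  classical
  conv_lhs => rw [r.as_sum]
  conv_rhs => rw [r.as_sum]
  rw [map_sum, map_sum, map_sum]
  refine Finset.sum_congr rfl fun c hc => ?_
  have h1 : Finsupp.weight w c = q * n := hr (mem_support_iff.1 hc)
  rw [tau_monomial, h1, if_pos (dvd_mul_right q n), Nat.mul_div_cancel_left n hq]

theorem tau_not_dvd (w : σ → ℕ) {q : ℕ} (δ : ℕ)
    (s : MvPolynomial σ k →ₗ[k] MvPolynomial σ k) (n : ℕ) (hn : ¬ q ∣ n) (r : MvPolynomial σ k)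
    (hr : IsWeightedHomogeneous w r n) : tau w q δ s r = 0 := by
  classical
  conv_lhs => rw [r.as_sum]
  rw [map_sum]
  refine Finset.sum_eq_zero fun c hc => ?_
  have h1 : Finsupp.weight w c = n := hr (mem_support_iff.1 hc)
  rw [tau_monomial, h1, if_neg hn]

/-- semilinearity -/
theorem tau_pow_mul (w : σ → ℕ) {q : ℕ} (hq : 0 < q) (δ : ℕ)
    (s : MvPolynomial σ k →ₗ[k] MvPolynomial σ k)
    (hadd : ∀ a b : MvPolynomial σ k, (a + b) ^ q = a ^ q + b ^ q)
    (hs : ∀ a r, s (a ^ q * r) = a * s r) (a r : MvPolynomial σ k) :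
    tau w q δ s (a ^ q * r) = a * tau w q δ s r := by
  classical
  induction a using MvPolynomial.induction_on' with
  | monomial α b =>
    induction r using MvPolynomial.induction_on' with
    | monomial β c =>
      have h1 : (monomial α b : MvPolynomial σ k) ^ q * monomial β c
          = monomial (q • α + β) (b ^ q * c) := by
        rw [monomial_pow, monomial_mul]
      have h2 : Finsupp.weight w (q • α + β)
          = q * Finsupp.weight w α + Finsupp.weight w β := by
        rw [map_add, map_nsmul, smul_eq_mul]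
      rw [h1, tau_monomial, tau_monomial, h2]
      by_cases h3 : q ∣ Finsupp.weight w β
      · rw [if_pos h3, if_pos ((Nat.dvd_add_right (dvd_mul_right q _)).2 h3),
          Nat.mul_add_div hq, add_assoc, ← h1, hs, wc_monomial_mul]
      · rw [if_neg h3, if_neg (fun h => h3 ((Nat.dvd_add_right (dvd_mul_right q _)).1 h)), mul_zero]
    | add p r hp hr => rw [mul_add, map_add, hp, hr, map_add, mul_add]
  | add p p' hp hp' => rw [hadd, add_mul, map_add, hp, hp', add_mul]

/-- a polynomial is a finite sum of its weighted components -/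
theorem wc_sum (w : σ → ℕ) (f : MvPolynomial σ k) :
    ∃ N : Finset ℕ, f = ∑ n ∈ N, weightedHomogeneousComponent w n f := by
  classical
  refine ⟨f.support.image (Finsupp.weight w), ?_⟩
  ext d
  rw [coeff_sum]
  simp_rw [coeff_weightedHomogeneousComponent]
  rw [Finset.sum_ite_eq]
  split_ifs with h
  · rfl
  · by_contra h2
    exact h (Finset.mem_image_of_mem _ (mem_support_iff.2 h2))

theorem tau_mem (w : σ → ℕ) {q : ℕ} (hq : 0 < q) (δ : ℕ)
    (s : MvPolynomial σ k →ₗ[k] MvPolynomial σ k) (J : Ideal (MvPolynomial σ k))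
    (hJ : ∀ f ∈ J, ∀ n, weightedHomogeneousComponent w n f ∈ J) (hs : ∀ f ∈ J, s f ∈ J)
    (f : MvPolynomial σ k) (hf : f ∈ J) : tau w q δ s f ∈ J := by
  obtain ⟨N, hN⟩ := wc_sum w f
  rw [hN, map_sum]
  refine Ideal.sum_mem _ fun n _ => ?_
  have hh := weightedHomogeneousComponent_isWeightedHomogeneous (w := w) n f
  by_cases h : q ∣ n
  · obtain ⟨m, rfl⟩ := h
    rw [tau_hom w hq δ s m _ hh]
    exact hJ _ (hs _ (hJ f hf _)) _
  · rw [tau_not_dvd w δ s n h _ hh]
    exact J.zero_mem

theorem tau_one (w : σ → ℕ) {q : ℕ} (hq : 0 < q) (δ : ℕ)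
    (s : MvPolynomial σ k →ₗ[k] MvPolynomial σ k) :
    tau w q δ s 1 = weightedHomogeneousComponent w δ (s 1) := by
  have h : IsWeightedHomogeneous w (1 : MvPolynomial σ k) (q * 0) := isWeightedHomogeneous_one k w
  rw [tau_hom w hq δ s 0 1 h, zero_add]

/-- the degrees of `tau` -/
theorem wc_tau (w : σ → ℕ) {q : ℕ} (hq : 0 < q) (δ : ℕ)
    (s : MvPolynomial σ k →ₗ[k] MvPolynomial σ k) (n : ℕ) (r : MvPolynomial σ k) :
    weightedHomogeneousComponent w (n + δ) (tau w q δ s r)
      = tau w q δ s (weightedHomogeneousComponent w (q * n) r) := by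
  classical
  induction r using MvPolynomial.induction_on' with
  | monomial α a =>
    have h0 : IsWeightedHomogeneous w (monomial α a) (Finsupp.weight w α) :=
      isWeightedHomogeneous_monomial w α a rfl
    rw [tau_monomial]
    by_cases h1 : Finsupp.weight w α = q * n
    · have h5 : IsWeightedHomogeneous w (monomial α a : MvPolynomial σ k) (q * n) := h1 ▸ h0
      rw [weightedHomogeneousComponent_eq_self h5, tau_monomial, h1,
        if_pos (dvd_mul_right q n), Nat.mul_div_cancel_left n hq,
        weightedHomogeneousComponent_eq_self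
          (weightedHomogeneousComponent_isWeightedHomogeneous _ _)]
    · rw [h0.weightedHomogeneousComponent_ne _ (fun h => h1 h.symm), map_zero]
      split_ifs with h2
      · refine (weightedHomogeneousComponent_isWeightedHomogeneous _ _).weightedHomogeneousComponent_ne
          _ (fun h => h1 ?_)
        rw [← Nat.mul_div_cancel' h2, Nat.add_right_cancel h]
      · rw [map_zero]
  | add p r hp hr => rw [map_add, map_add, map_add, map_add, hp, hr]

theorem wc_tau_lt (w : σ → ℕ) {q : ℕ} (δ : ℕ)
    (s : MvPolynomial σ k →ₗ[k] MvPolynomial σ k) (n : ℕ) (hn : n < δ) (r : MvPolynomial σ k) :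
    weightedHomogeneousComponent w n (tau w q δ s r) = 0 := by
  classical
  induction r using MvPolynomial.induction_on' with
  | monomial α a =>
    rw [tau_monomial]
    split_ifs with h2
    · exact (weightedHomogeneousComponent_isWeightedHomogeneous _ _).weightedHomogeneousComponent_ne
        _ (ne_of_lt (lt_of_lt_of_le hn (Nat.le_add_left _ _)))
    · rw [map_zero]
  | add p r hp hr => rw [map_add, map_add, hp, hr, add_zero]

end Fuj
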