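import Pool.Agent.Lib.MP_0b721b_ag.Car.Exist
import Pool.Agent.Lib.MP_0b721b_ag.Car.Wt
import Pool.Agent.Lib.MP_0b721b_ag.Nf.Fib

/-!
# Project FUJ, Car: the maps sigma on all finite fibres of a homogeneous prime
-/

set_option autoImplicit false

open MvPolynomial

namespace Fuj

open FujNf

/-- the fibres of a homogeneous ideal are homogeneous -/
theorem fib_wc {σ K : Type*} [Field K] {w : σ → ℕ} {I : Ideal (MvPolynomial σ K)}
    (hI : ∀ f ∈ I, ∀ n, weightedHomogeneousComponent w n f ∈ I) {B : Subring K} {R : Type*}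
    [CommRing R] (φ : B →+* R) :
    ∀ f ∈ fib I φ, ∀ n, weightedHomogeneousComponent w n f ∈ fib I φ := by
  intro f hf n
  unfold fib at hf
  rw [mem_map_iff] at hf
  induction hf using Submodule.span_induction with
  | mem y hy =>
    obtain ⟨z, hz, rfl⟩ := hy
    rw [wc_map]
    refine map_mem_fib φ ?_
    rw [← wc_map]
    exact hI _ hz n
  | zero => rw [map_zero]; exact Ideal.zero_mem _
  | add y z _ _ hy hz => rw [map_add]; exact Ideal.add_mem _ hy hz
  | smul a y _ hy =>
    rw [map_smul, smul_eq_C_mul]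
    exact Ideal.mul_mem_left _ _ hy

/-- the data of the maps sigma over all fibres -/
theorem spread.{u, v, w} {σ : Type u} [Fintype σ] [DecidableEq σ] {K : Type v} [Field K]
    [PerfectField K] (P : Ideal (MvPolynomial σ K)) [P.IsPrime] :
    ∃ (G : Finset (MvPolynomial σ K)) (U : Finset σ) (g : σ → MvPolynomial σ K)
      (c : MvPolynomial σ K), c * (Jac g).det ∉ P ∧ (∀ i, g i ∈ G) ∧ c ∈ G ∧
      ∀ B : Subring K, (cofs G : Set K) ⊆ B → ∀ (g' : σ → MvPolynomial σ B)
        (c' : MvPolynomial σ B), (∀ i, map B.subtype (g' i) = g i) → map B.subtype c' = c →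
        ∀ (R : Type w) [CommRing R] (φ : B →+* R), (∀ i ∈ U, map φ (g' i) ∈ fib P φ) ∧
          ∀ a ∈ fib P φ, map φ c' * a ∈
            Ideal.span ((fun i => map φ (g' i)) '' (U : Set σ)) := by
  classical
  obtain ⟨U, g, c, hg, hc, hdet⟩ := exists_data P
  obtain ⟨G, hG⟩ := cut_le_span (ι := U) (Ideal.span {c} * P) (fun i => g i) (by
    rw [Ideal.span_singleton_mul_le_iff]
    intro z hz
    have h1 := hc z hz
    refine Ideal.span_mono ?_ h1
    rintro _ ⟨i, hi, rfl⟩
    exact ⟨⟨i, hi⟩, rfl⟩)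
  refine ⟨G ∪ (Finset.univ.image g ∪ {c}), U, g, c, hdet, ?_, ?_, ?_⟩
  · intro i
    exact Finset.mem_union_right _ (Finset.mem_union_left _
      (Finset.mem_image_of_mem _ (Finset.mem_univ i)))
  · exact Finset.mem_union_right _ (Finset.mem_union_right _ (Finset.mem_singleton_self c))
  · intro B hB g' c' hg' hc' R _ φ
    refine ⟨fun i hi => map_mem_fib φ (by rw [hg']; exact hg i hi), ?_⟩
    have hB1 : (cofs G : Set K) ⊆ B :=
      (Finset.coe_subset.2 (cofs_mono Finset.subset_union_left)).trans hB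
    have h1 := hG B hB1 (fun i => g' i) (fun t => hg' t)
    intro a ha
    unfold fib Ideal.map at ha
    induction ha using Submodule.span_induction with
    | mem y hy =>
      obtain ⟨z, hz, rfl⟩ := hy
      have h2 : c' * z ∈ cut (Ideal.span {c} * P) B := by
        rw [mem_cut, map_mul, hc']
        exact Ideal.mul_mem_mul (Ideal.mem_span_singleton_self c) hz
      have h3 := Ideal.mem_map_of_mem (map φ) (h1 h2)
      rw [Ideal.map_span, ← Set.range_comp, map_mul] at h3
      refine Ideal.span_mono ?_ h3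
      rintro _ ⟨i, rfl⟩
      exact ⟨i, i.2, rfl⟩
    | zero => rw [mul_zero]; exact Ideal.zero_mem _
    | add y z _ _ hy hz => rw [mul_add]; exact Ideal.add_mem _ hy hz
    | smul r y _ hy =>
      rw [smul_eq_mul, mul_left_comm]
      exact Ideal.mul_mem_left _ _ hy

/-- **The maps sigma on all finite fibres of a homogeneous prime.** -/
theorem exists_frob.{u, v, w} {σ : Type u} [Fintype σ] {K : Type v} [Field K]
    [PerfectField K] (P : Ideal (MvPolynomial σ K)) [P.IsPrime] (w : σ → ℕ)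
    (hP : ∀ f ∈ P, ∀ n, weightedHomogeneousComponent w n f ∈ P) :
    ∃ (G : Finset (MvPolynomial σ K)) (δ : ℕ) (c : MvPolynomial σ K),
      c ∉ P ∧ IsWeightedHomogeneous w c δ ∧ c ∈ G ∧
      ∀ B : Subring K, (cofs G : Set K) ⊆ B → ∀ c' : MvPolynomial σ B, map B.subtype c' = c →
        ∀ (k : Type w) [Field k] (φ : B →+* k) (p e : ℕ) [Fact p.Prime] [CharP k p],
          (∀ x : k, x ^ p ^ e = x) →
          ∃ τ : MvPolynomial σ k →ₗ[k] MvPolynomial σ k,
            (∀ a r, τ (a ^ p ^ e * r) = a * τ r) ∧ (∀ a ∈ fib P φ, τ a ∈ fib P φ) ∧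
            τ 1 = map φ c' ∧
            (∀ n r, weightedHomogeneousComponent w (n + δ) (τ r) =
              τ (weightedHomogeneousComponent w (p ^ e * n) r)) ∧
            ∀ n, n < δ → ∀ r, weightedHomogeneousComponent w n (τ r) = 0 := by
  classical
  obtain ⟨G, U, g, c, hdet, hgG, hcG, hG⟩ := spread.{u, v, w} P
  have hδ : ∃ δ, weightedHomogeneousComponent w δ (c * (Jac g).det) ∉ P := by
    by_contra h
    push Not at h
    obtain ⟨N, hN⟩ := wc_sum w (c * (Jac g).det)
    refine hdet ?_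
    rw [hN]
    exact Ideal.sum_mem _ fun n _ => h n
  obtain ⟨δ, hδ⟩ := hδ
  refine ⟨G ∪ {weightedHomogeneousComponent w δ (c * (Jac g).det)}, δ,
    weightedHomogeneousComponent w δ (c * (Jac g).det), hδ,
    weightedHomogeneousComponent_isWeightedHomogeneous _ _,
    Finset.mem_union_right _ (Finset.mem_singleton_self _), ?_⟩
  intro B hB c₁ hc₁ k _ φ p e _ _ hq
  have hB1 : (cofs G : Set K) ⊆ B :=
    (Finset.coe_subset.2 (cofs_mono Finset.subset_union_left)).trans hB
  have hlg : ∀ i, ∃ g' : MvPolynomial σ B, map B.subtype g' = g i := fun i =>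
    exists_lift B _ ((Finset.coe_subset.2 (coeffs_subset_cofs (hgG i))).trans hB1)
  choose g' hg' using hlg
  obtain ⟨c', hc'⟩ := exists_lift B c ((Finset.coe_subset.2 (coeffs_subset_cofs hcG)).trans hB1)
  obtain ⟨h1, h2⟩ := hG B hB1 g' c' hg' hc' k φ
  have hp0 : 0 < p ^ e := pow_pos (Fact.out : p.Prime).pos e
  refine ⟨tau w (p ^ e) δ (sig (p ^ e) (fun i => map φ (g' i)) (map φ c')), ?_, ?_, ?_, ?_, ?_⟩
  · intro a r
    refine tau_pow_mul w hp0 δ _ (fun a b => add_pow_char_pow a b p e) (fun a r => ?_) a r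
    exact sig_pow_mul p e rfl hq _ _ a r
  · intro a ha
    refine tau_mem w hp0 δ _ _ (fib_wc hP φ) (fun f hf => ?_) a ha
    exact sig_mem p e rfl hq _ _ _ U h1 h2 f hf
  · have hgg : (fun i => map B.subtype (g' i)) = g := funext hg'
    have h3 : weightedHomogeneousComponent w δ (c' * (Jac g').det) = c₁ := by
      apply map_injective B.subtype (subtype_inj B)
      rw [hc₁, ← wc_map, map_mul, hc', map_Jac_det, hgg]
    rw [tau_one w hp0, sig_one p e rfl hq, ← map_Jac_det, ← map_mul, wc_map, h3]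
  · intro n r
    exact wc_tau w hp0 δ _ n r
  · intro n hn r
    exact wc_tau_lt w δ _ n hn r

end Fuj
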